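import Pool.Agent.Helper5.GB.St

/-! # Project GB: compactness of full orbits -/

set_option autoImplicit false

open Set Filter Topology
open Helper85.HN (hen Orb Bd KK E0)

namespace Pool.Agent.Helper95.GB

open Pool.Agent.Helper5.GB

theorem hen_cont (b c : ℝ) : Continuous (hen b c) := by
  unfold hen
  fun_prop

theorem it_add (b c : ℝ) (m n : ℕ) (z : ℝ × ℝ) :
    (hen b c)^[m + n] z = (hen b c)^[m] ((hen b c)^[n] z) := Function.iterate_add_apply _ _ _ _

theorem it_snd (b c : ℝ) (m : ℕ) (z : ℝ × ℝ) :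
    ((hen b c)^[m + 1] z).2 = ((hen b c)^[m] z).1 := by
  rw [Function.iterate_succ_apply']
  rfl

theorem it_fst (b c : ℝ) (m : ℕ) (z : ℝ × ℝ) :
    ((hen b c)^[m + 2] z).1 = ((hen b c)^[m + 1] z).1 ^ 2 + c - b * ((hen b c)^[m] z).1 := by
  rw [Function.iterate_succ_apply' (hen b c) (m + 1)]
  show ((hen b c)^[m + 1] z).1 ^ 2 + c - b * ((hen b c)^[m + 1] z).2 = _
  rw [it_snd]

theorem hBiz : StBiz := by
  intro b c D E m1 m2 hm1 hD hE H w k
  classical
  set g := hen b c with hg
  set T := m1 + m2 with hT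
  have hT1 : 1 ≤ T := by omega
  have hgc : ∀ r : ℕ, Continuous (g^[r]) := fun r => (hen_cont b c).iterate r
  -- the compact set
  set Kc : Set (ℝ × ℝ) := ⋃ r ∈ Finset.range T, g^[r] '' D with hKc
  have hKcomp : IsCompact Kc := (Finset.range T).isCompact_biUnion fun r _ => hD.image (hgc r)
  obtain ⟨M, hM⟩ : ∃ M : ℝ, ∀ p ∈ Kc, |p.1| ≤ M := by
    obtain ⟨M, hM⟩ := (hKcomp.image continuous_fst).isBounded.exists_norm_le
    exact ⟨M, fun p hp => hM p.1 ⟨p, hp, rfl⟩⟩
  choose z hzD hz1 hz2 using fun n : ℕ => H (fun j => w (j - n)) (2 * n + k + 1)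
  have hb : ∀ n i : ℕ, i ≤ 2 * n * T → |(g^[i] (z n)).1| ≤ M := by
    intro n i hi
    apply hM
    have hdiv := Nat.div_add_mod i T
    have hq : i / T ≤ 2 * n + k + 1 := by
      have : i / T ≤ 2 * n := by
        calc i / T ≤ (2 * n * T) / T := Nat.div_le_div_right hi
          _ = 2 * n := Nat.mul_div_cancel _ (by omega)
      omega
    have h1 := hz1 n (i / T) hq
    rw [hKc]
    simp only [mem_iUnion, Finset.mem_range]
    refine ⟨i % T, Nat.mod_lt _ (by omega), g^[i / T * T] (z n), h1, ?_⟩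
    rw [← Function.iterate_add_apply]
    congr 1
    rw [mul_comm (i / T) T]
    omega
  have hM0 : 0 ≤ M := (abs_nonneg _).trans (hb 0 0 (by omega))
  -- the sequences
  set X : ℕ → ℤ → ℝ := fun n i => if -((n * T : ℕ) : ℤ) ≤ i ∧ i ≤ ((n * T : ℕ) : ℤ) then
    (g^[(i + ((n * T : ℕ) : ℤ)).toNat] (z n)).1 else 0 with hX
  have hXval : ∀ (n : ℕ) (i : ℤ) (m : ℕ), m ≤ 2 * n * T → i + ((n * T : ℕ) : ℤ) = m →
      X n i = (g^[m] (z n)).1 := by
    intro n i m hm him
    rw [hX]
    simp only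
    have e : 2 * n * T = n * T + n * T := by ring
    rw [if_pos (by constructor <;> omega), him]
    rfl
  have hXM : ∀ n, X n ∈ Set.pi univ fun _ : ℤ => Icc (-M) M := by
    intro n i _
    rw [mem_Icc, ← abs_le]
    by_cases hi : -((n * T : ℕ) : ℤ) ≤ i ∧ i ≤ ((n * T : ℕ) : ℤ)
    · have e : 2 * n * T = n * T + n * T := by ring
      rw [hXval n i (i + ((n * T : ℕ) : ℤ)).toNat (by omega) (by omega)]
      exact hb n _ (by omega)
    · rw [hX]
      simp only
      rw [if_neg hi, abs_zero]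
      exact hM0
  have hcomp : IsCompact (Set.pi univ fun _ : ℤ => Icc (-M) M) :=
    isCompact_univ_pi fun _ => isCompact_Icc
  obtain ⟨x, hxM, hx⟩ := hcomp.exists_mapClusterPt (f := atTop) (u := X)
    (tendsto_principal.2 (Eventually.of_forall hXM))
  have hcl : ∀ C : Set (ℤ → ℝ), IsClosed C → (∀ᶠ n in atTop, X n ∈ C) → x ∈ C := by
    intro C hC hev
    by_contra hxC
    have h1 := hx.frequently (hC.isOpen_compl.mem_nhds hxC)
    obtain ⟨n, h2, h3⟩ := (h1.and_eventually hev).exists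
    exact h2 h3
  have hn : ∀ i : ℤ, ∀ᶠ n : ℕ in atTop, |i| + 2 ≤ ((n * T : ℕ) : ℤ) := by
    intro i
    refine eventually_atTop.2 ⟨(|i| + 2).toNat, fun n hn => ?_⟩
    have h1 : n ≤ n * T := Nat.le_mul_of_pos_right n (by omega)
    have h2 : |i| + 2 ≤ (n : ℤ) := by omega
    have h3 : (n : ℤ) ≤ ((n * T : ℕ) : ℤ) := by exact_mod_cast h1
    omega
  have hOrb : Orb b c x := by
    intro i
    have hc : IsClosed {y : ℤ → ℝ | y (i + 1) = y i ^ 2 + c - b * y (i - 1)} := by
      apply isClosed_eq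
      · exact continuous_apply _
      · exact (((continuous_apply i).pow 2).add continuous_const).sub
          (continuous_const.mul (continuous_apply _))
    refine hcl _ hc ((hn i).mono fun n hni => ?_)
    show X n (i + 1) = X n i ^ 2 + c - b * X n (i - 1)
    have e : 2 * n * T = n * T + n * T := by ring
    have ha := abs_le.1 (le_refl |i|)
    obtain ⟨m, hm⟩ : ∃ m : ℕ, i - 1 + ((n * T : ℕ) : ℤ) = m :=
      ⟨(i - 1 + ((n * T : ℕ) : ℤ)).toNat, by omega⟩
    rw [hXval n (i + 1) (m + 2) (by omega) (by push_cast; push_cast at hm; linarith),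
      hXval n i (m + 1) (by omega) (by push_cast; push_cast at hm; linarith),
      hXval n (i - 1) m (by omega) hm, hg, it_fst]
  have hBd : Bd x := ⟨M, fun i => by
    have := hxM i (mem_univ i)
    rw [mem_Icc] at this
    exact abs_le.2 this⟩
  refine ⟨(x 0, x (-1)), ⟨x, hOrb, hBd, rfl, rfl⟩, ?_⟩
  intro j hj
  have hcont : Continuous fun y : ℤ → ℝ => g^[j * T + m1] (y 0, y (-1)) :=
    (hgc _).comp ((continuous_apply 0).prodMk (continuous_apply (-1)))
  have hc : IsClosed {y : ℤ → ℝ | g^[j * T + m1] (y 0, y (-1)) ∈ (if w j = true then D else E)} := by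
    split_ifs
    · exact hD.isClosed.preimage hcont
    · exact hE.isClosed.preimage hcont
  refine hcl _ hc ((hn 0).mono fun n hn0 => ?_)
  show g^[j * T + m1] (X n 0, X n (-1)) ∈ (if w j = true then D else E)
  have e : 2 * n * T = n * T + n * T := by ring
  rw [abs_zero, zero_add] at hn0
  obtain ⟨m, hm⟩ : ∃ m : ℕ, n * T = m + 1 := ⟨n * T - 1, by omega⟩
  rw [hXval n 0 (m + 1) (by omega) (by push_cast; push_cast at hm; omega),
    hXval n (-1) m (by omega) (by omega)]
  have h1 : (((g^[m + 1] (z n)).1, (g^[m] (z n)).1) : ℝ × ℝ) = g^[n * T] (z n) := by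
    rw [hm]
    apply Prod.ext
    · rfl
    · show (g^[m] (z n)).1 = (g^[m + 1] (z n)).2
      rw [hg, it_snd]
  rw [h1, ← Function.iterate_add_apply]
  have h2 := hz2 n (j + n) (by omega)
  have h3 : (j + n) * T + m1 = j * T + m1 + n * T := by ring
  rw [h3] at h2
  simpa using h2

end Pool.Agent.Helper95.GB
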